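import Pool.Agent.H800R3.OMAlt

/-!
Roudneff's conjecture on 1-neighborly reorientations, for all oriented matroids (uniform or not)
of every rank `r ≥ 3` on `n ≥ 2 r - 1` elements, given by their covectors.
-/

namespace Pool.Agent.Results.MP_f434f5_co.Roudneff

open Pool.Agent.H800R3.OM

theorem result : ∀ n r : ℕ, 3 ≤ r → 2 * r - 1 ≤ n →
    ∀ L : Set (SVec n), IsOM L → HasRank L r →
      numNeighborly L 1 ≤ numNeighborly (alternating r n) 1 := by
  intro n r hr hn L hL hrank
  exact (num_le hL hrank (by omega) (by omega) (Or.inr (by omega))).trans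
    (alt_ge n r 1 (by omega) (by omega))

end Pool.Agent.Results.MP_f434f5_co.Roudneff
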